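import Pool.Agent.H97.SDG.Targets
import Pool.Agent.H73.SD.NE2

/-!
The numerical inequality for (E2), with the factor 4 (`MP_c62aed_lc`).
-/

set_option autoImplicit false

open Finset

namespace Pool.Agent.H14.SDG

open Pool.Agent.H97.SD Pool.Agent.H97.SDQ Pool.Agent.H97.SDG Pool.Agent.H73.SD.NE2

theorem pf_NF2 : P_NF2 := by
  intro A hA
  refine ⟨3 * A * 2 ^ (48 * A * A) + 32 * A * A + 5, ?_⟩
  intro k N hk hkN
  have hk1 : 3 * A * 2 ^ (48 * A * A) ≤ k := by omega
  have hk2 : 32 * A * A ≤ k := by omega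
  have hk3 : 5 ≤ k := by omega
  have hAA : 0 < 4 * A * A := by positivity
  set r : ℕ := k / (4 * A * A) with hr
  have hr8 : 8 ≤ r := by
    rw [hr, Nat.le_div_iff_mul_le hAA]
    calc 8 * (4 * A * A) = 32 * A * A := by ring
      _ ≤ k := hk2
  have hrk : r ≤ k := Nat.div_le_self _ _
  have hr1 : k < 4 * A * A * (r + 1) := by
    have := Nat.lt_div_mul_add hAA (a := k)
    calc k < k / (4 * A * A) * (4 * A * A) + 4 * A * A := this
      _ = 4 * A * A * (r + 1) := by rw [hr]; ring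
  have hr2 : k ≤ 16 * A * A * (r - 2) := by
    obtain ⟨t, ht⟩ : ∃ t, r = t + 2 := ⟨r - 2, by omega⟩
    have e1 : r - 2 = t := by omega
    rw [e1]
    rw [ht] at hr1
    have e2 : 4 * A * A * (t + 2 + 1) = 4 * A * A * t + 12 * (A * A) := by ring
    have e3 : 16 * A * A * t = 4 * (4 * A * A * t) := by ring
    have e4 : 32 * A * A = 32 * (A * A) := by ring
    rw [e2] at hr1; rw [e3]; rw [e4] at hk2
    omega
  have hN : 0 < N := by omega
  set T : ℕ := N ^ (k * ((k + 1) * N)) with hT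
  have hTpos : (0 : ℝ) < T := by
    have : 0 < T := by rw [hT]; positivity
    exact_mod_cast this
  have hterm : ∀ s ∈ Icc 1 (2 * A * N / k + 1),
      ((((k + 1) * N).choose s * N.choose s * (2 ^ k * s ^ r * N ^ (k - r)) ^ s *
        N ^ (k * ((k + 1) * N - s)) : ℕ) : ℝ) ≤ T * (1 / 8) ^ s := by
    intro s hs
    rw [Finset.mem_Icc] at hs
    have hsk : s * k ≤ 3 * A * N := by
      calc s * k ≤ (2 * A * N / k + 1) * k := Nat.mul_le_mul_right k hs.2
        _ = 2 * A * N / k * k + k := by ring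
        _ ≤ 2 * A * N + k := Nat.add_le_add_right (Nat.div_mul_le_self _ _) k
        _ ≤ 2 * A * N + A * N := Nat.add_le_add_left (hkN.trans (Nat.le_mul_of_pos_left N hA)) _
        _ = 3 * A * N := by ring
    have h := term k N s r hs.1 (by omega) hrk (key A k N s r hk1 hk3 hA hsk hr2)
    have h' : (8 : ℝ) ^ s * ((((k + 1) * N).choose s * N.choose s *
        (2 ^ k * s ^ r * N ^ (k - r)) ^ s * N ^ (k * ((k + 1) * N - s)) : ℕ) : ℝ) ≤ T := by
      exact_mod_cast h
    rw [one_div, inv_pow, ← div_eq_mul_inv, le_div_iff₀ (by positivity), mul_comm]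
    exact h'
  have hsum : ((∑ s ∈ Icc 1 (2 * A * N / k + 1), ((k + 1) * N).choose s * N.choose s *
      (2 ^ k * s ^ r * N ^ (k - r)) ^ s * N ^ (k * ((k + 1) * N - s)) : ℕ) : ℝ) ≤
      T * (1 / 7) := by
    rw [Nat.cast_sum]
    refine (Finset.sum_le_sum hterm).trans ?_
    rw [← Finset.mul_sum]
    exact mul_le_mul_of_nonneg_left (geom _) hTpos.le
  have hfin : ((4 * ∑ s ∈ Icc 1 (2 * A * N / k + 1), ((k + 1) * N).choose s * N.choose s *
      (2 ^ k * s ^ r * N ^ (k - r)) ^ s * N ^ (k * ((k + 1) * N - s)) : ℕ) : ℝ) < T := by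
    rw [Nat.cast_mul]
    push_cast at hsum ⊢
    linarith
  exact_mod_cast hfin

end Pool.Agent.H14.SDG
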